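import Mathlib
import Pool.Agent.helper56.PiClassDefs
import Pool.Agent.helper56.MADFinal

set_option autoImplicit false

namespace Pool.Agent.Results.MP_054fd8_lc.ComputableMADClass

open Pool.Agent.helper56

/-- There is a `Π⁰₁` class `P` all of whose members are infinite sets, which has infinitely many
computable members, whose computable members are pairwise almost disjoint, and such that every
infinite computable set has infinite intersection with some computable member of `P`. -/
theorem result : ∃ P : Set (Set ℕ), IsPi01Class P ∧
    (∀ X ∈ P, X.Infinite) ∧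
    {X | X ∈ P ∧ IsComputableSet X}.Infinite ∧
    (∀ X ∈ P, ∀ Y ∈ P, IsComputableSet X → IsComputableSet Y → X ≠ Y → (X ∩ Y).Finite) ∧
    (∀ R : Set ℕ, IsComputableSet R → R.Infinite →
      ∃ X ∈ P, IsComputableSet X ∧ (X ∩ R).Infinite) :=
  ⟨MAD.PP, MAD.class_PP, fun _ h => MAD.infinite_of_mem h, MAD.infinitely_many,
    fun _ hX _ hY cX cY h => MAD.pairwise_ad hX hY cX cY h,
    fun _ hR hinf => MAD.exists_catch hR hinf⟩

end Pool.Agent.Results.MP_054fd8_lc.ComputableMADClass
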